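import Pool.Agent.Work.MP_db9399_bg.Interface
import Pool.Agent.Work.MP_db9399_sc_helper59.HIT

/-!
# MP_db9399, THEOREM BIG, block HIT2

Disjoint connected critical sets such that every critical set contains one of them up to three
vertices.
-/

set_option autoImplicit false

namespace Pool.Agent.Work.MP_db9399_bg.helper59

open Finset Classical
open Pool.Agent.Work.MP_db9399_all (nb)
open Pool.Agent.Work.MP_db9399_sc (cut Crit Conn Env Fam)
open Pool.Agent.Work.MP_db9399_sc.helper59
open Pool.Agent.Work.MP_db9399_bg

universe u

theorem stmt_HIT2 : Stmt_HIT2.{u} := by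
  refine ⟨100, ?_⟩
  intro V _ F d U L hd E
  obtain ⟨Cs, ha, hb, hc⟩ := greedy F d U L (by omega) L.card L rfl (Finset.Subset.refl _)
  refine ⟨Cs, ⟨E, fun C hC => (ha C hC).2.1, fun C hC => ?_, hb⟩, ?_⟩
  · exact conn_of_min F F d U L E hd C (ha C hC).2.1 (ha C hC).2.2
  · have key : ∀ (n : ℕ) (C : Finset V), C.card = n → Crit F d U L C →
        ∃ C' ∈ Cs, (C' \ C).card ≤ 3 := by
      intro n
      induction n using Nat.strong_induction_on with
      | _ n ih =>
        intro C hn hcr
        obtain ⟨C1, hC1, hmeet, hle⟩ := hc C hcr.1 hcr
        obtain ⟨hC1L, hC1c, hC1m⟩ := ha C1 hC1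
        obtain ⟨x0, hx0⟩ := hmeet
        obtain ⟨hx0a, hx0b⟩ := Finset.mem_inter.mp hx0
        have hk1 := hC1c.2.1
        have hk2 := hC1c.2.2
        have hk3 := hcr.2.1
        have hk4 := hcr.2.2
        by_cases h3 : (C1 \ C).card ≤ 3
        · exact ⟨C1, hC1, h3⟩
        · have hpos := posi F U C1 C ((hC1L).trans E.LU) (hcr.1.trans E.LU)
          have hne1 : C1 \ C ≠ C1 := by
            intro h
            rw [← h] at hx0b
            exact (Finset.mem_sdiff.mp hx0b).2 hx0a
          have hnc : ¬ Crit F d U L (C1 \ C) := hC1m _ Finset.sdiff_subset hne1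
          have hbig : d ≤ 2 * (C1 \ C).card := by
            by_contra hlt
            have h5 := small4 F F d U L E (C1 \ C) (Finset.sdiff_subset.trans hC1L) hd
              (by omega) (by omega)
            omega
          have hcut1 : 7 * d ≤ 5 * cut F U (C1 \ C) := by
            by_contra hlt
            exact hnc ⟨Finset.sdiff_subset.trans hC1L, hbig, by omega⟩
          have hlt : (C \ C1).card < C.card := by
            refine Finset.card_lt_card (Finset.ssubset_iff_subset_ne.mpr
              ⟨Finset.sdiff_subset, fun h => ?_⟩)
            rw [← h] at hx0a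
            exact (Finset.mem_sdiff.mp hx0a).2 hx0b
          by_cases hsm : d ≤ 2 * (C \ C1).card
          · obtain ⟨C2, hC2, h2⟩ := ih _ (by omega) (C \ C1) rfl
              ⟨Finset.sdiff_subset.trans hcr.1, hsm, by omega⟩
            refine ⟨C2, hC2, ?_⟩
            by_cases hce : C2 = C1
            · exfalso
              subst hce
              have h5 : C2 ⊆ C2 \ (C \ C2) := by
                intro v hv
                simp only [Finset.mem_sdiff]
                tauto
              have := Finset.card_le_card h5
              omega
            · have hdis := hb C2 hC2 C1 hC1 hce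
              refine (Finset.card_le_card ?_).trans h2
              intro v hv
              obtain ⟨hv1, hv2⟩ := Finset.mem_sdiff.mp hv
              exact Finset.mem_sdiff.mpr ⟨hv1, fun h => hv2 (Finset.mem_sdiff.mp h).1⟩
          · exfalso
            have hone : (C \ C1).card ≤ 1 := by
              by_contra hge
              have h5 := small2 F F d U L E (C \ C1) (Finset.sdiff_subset.trans hcr.1) hd
                (by omega) (by omega)
              omega
            have e1 := Finset.card_sdiff_add_card_inter C C1
            have e2 := Finset.card_sdiff_add_card_inter C1 C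
            rw [Finset.inter_comm C1 C] at e2
            omega
    intro C hC
    exact key C.card C rfl hC

end Pool.Agent.Work.MP_db9399_bg.helper59
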